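import Pool.Agent.J4H69.K2.Stm
import Pool.Agent.J4H17.K1.Com

/-!
# Project K2: (BR) branches of an algebraic function
-/

set_option autoImplicit false

namespace Pool.Agent.J4H22.K2

open Filter Topology Set Metric

/-- `Q` as a polynomial in the variable `1` -/
noncomputable def PP (Q : MvPolynomial (Fin 2) ℂ) : Polynomial (MvPolynomial (Fin 1) ℂ) :=
  MvPolynomial.finSuccEquiv ℂ 1 (MvPolynomial.rename (Equiv.swap (0 : Fin 2) 1) Q)

lemma PP_eval (Q : MvPolynomial (Fin 2) ℂ) (z y : ℂ) :
    MvPolynomial.eval ![z, y] Q =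
      ((PP Q).map (MvPolynomial.eval fun _ : Fin 1 => z)).eval y := by
  unfold PP
  rw [← MvPolynomial.eval_eq_eval_mv_eval', MvPolynomial.eval_rename]
  congr 2
  funext i
  fin_cases i <;> simp

lemma PP_deg (Q : MvPolynomial (Fin 2) ℂ) : (PP Q).natDegree = Q.degreeOf 1 := by
  unfold PP
  rw [MvPolynomial.natDegree_finSuccEquiv]
  have := MvPolynomial.degreeOf_rename_of_injective (p := Q) (Equiv.swap (0 : Fin 2) 1).injective 1
  rw [← this]
  simp

lemma PP_irr (Q : MvPolynomial (Fin 2) ℂ) (hQ : Irreducible Q) : Irreducible (PP Q) := by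
  unfold PP
  rw [MulEquiv.irreducible_iff (MvPolynomial.finSuccEquiv ℂ 1)]
  exact (MulEquiv.irreducible_iff (MvPolynomial.renameEquiv ℂ (Equiv.swap (0 : Fin 2) 1))).2 hQ

/-- elimination: no common zeros with the derivative for general `z` -/
lemma PP_disc (Q : MvPolynomial (Fin 2) ℂ) (hQ : Irreducible Q) (hd : Q.degreeOf 1 ≠ 0) :
    ∃ e : MvPolynomial (Fin 1) ℂ, e ≠ 0 ∧ ∀ z y : ℂ, MvPolynomial.eval (fun _ => z) e ≠ 0 →
      ((PP Q).map (MvPolynomial.eval fun _ : Fin 1 => z)).eval y = 0 →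
      (Polynomial.derivative ((PP Q).map (MvPolynomial.eval fun _ : Fin 1 => z))).eval y ≠ 0 := by
  have hP := PP_irr Q hQ
  have hdeg : (PP Q).natDegree ≠ 0 := by rw [PP_deg]; exact hd
  have hder : Polynomial.derivative (PP Q) ≠ 0 := by
    intro h
    exact hdeg (Polynomial.derivative_eq_zero.1 h)
  obtain ⟨e, he0, he⟩ := Pool.Agent.J4H17.K1.elim
    (fun l : ℕ => if l = 0 then PP Q else Polynomial.derivative (PP Q)) (by
      intro p hp
      have h0 : p ∣ PP Q := by simpa using hp 0
      have h1 : p ∣ Polynomial.derivative (PP Q) := by simpa using hp 1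
      obtain ⟨q, hq⟩ := h0
      rcases hP.isUnit_or_isUnit hq with hu | hu
      · exact hu
      · exfalso
        have h2 : PP Q ∣ p := by
          obtain ⟨v, rfl⟩ := hu
          refine ⟨(↑v⁻¹ : Polynomial (MvPolynomial (Fin 1) ℂ)), ?_⟩
          rw [hq, mul_assoc, Units.mul_inv, mul_one]
        have h3 : PP Q ∣ Polynomial.derivative (PP Q) := h2.trans h1
        exact Polynomial.not_dvd_of_natDegree_lt hder (Polynomial.natDegree_derivative_lt hdeg) h3)
    ⟨0, by simpa using hP.ne_zero⟩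
  refine ⟨e, he0, ?_⟩
  intro z y hz h0 h1
  apply hz
  let φ : Polynomial (MvPolynomial (Fin 1) ℂ) →+* ℂ :=
    (Polynomial.evalRingHom y).comp (Polynomial.mapRingHom (MvPolynomial.eval fun _ : Fin 1 => z))
  have hle : Ideal.span (Set.range (fun l : ℕ => if l = 0 then PP Q else Polynomial.derivative (PP Q))) ≤
      RingHom.ker φ := by
    rw [Ideal.span_le]
    rintro _ ⟨l, rfl⟩
    by_cases hl : l = 0
    · simp only [hl, if_true]
      exact h0
    · simp only [hl, if_false]
      show ((Polynomial.derivative (PP Q)).map (MvPolynomial.eval fun _ : Fin 1 => z)).eval y = 0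
      rw [← Polynomial.derivative_map]
      exact h1
  have := hle he
  rw [RingHom.mem_ker] at this
  simpa [φ] using this

lemma cd (Q : MvPolynomial (Fin 2) ℂ) (n : WithTop ℕ∞) :
    ContDiff ℂ n (fun p : ℂ × ℂ => MvPolynomial.eval ![p.1, p.2] Q) := by
  induction Q using MvPolynomial.induction_on with
  | C a => simpa using contDiff_const
  | add p q hp hq => simpa using hp.add hq
  | mul_X p i hp =>
    simp only [map_mul, MvPolynomial.eval_X]
    apply hp.mul
    fin_cases i
    · simpa using contDiff_fst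
    · simpa using contDiff_snd

/-- a local branch -/
lemma branch (Q : MvPolynomial (Fin 2) ℂ) (w b : ℂ) (h0 : MvPolynomial.eval ![w, b] Q = 0)
    (h1 : (Polynomial.derivative ((PP Q).map (MvPolynomial.eval fun _ : Fin 1 => w))).eval b ≠ 0) :
    ∃ α : ℂ → ℂ, α w = b ∧ AnalyticAt ℂ α w ∧ ∀ᶠ z in 𝓝 w, MvPolynomial.eval ![z, α z] Q = 0 := by
  set f : ℂ × ℂ → ℂ := fun p => MvPolynomial.eval ![p.1, p.2] Q with hf
  have hcd : ContDiffAt ℂ (⊤ : WithTop ℕ∞) f (w, b) := (cd Q ⊤).contDiffAt
  have hfd : HasFDerivAt f (fderiv ℂ f (w, b)) (w, b) :=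
    (hcd.differentiableAt (by simp)).hasFDerivAt
  have hd : HasDerivAt (fun y => f (w, y)) (fderiv ℂ f (w, b) (0, 1)) b := by
    have h2 : HasDerivAt (fun y : ℂ => ((w, y) : ℂ × ℂ)) ((0, 1) : ℂ × ℂ) b :=
      (hasDerivAt_const b w).prodMk (hasDerivAt_id b)
    exact hfd.comp_hasDerivAt b h2
  have hd' : HasDerivAt (fun y => f (w, y))
      ((Polynomial.derivative ((PP Q).map (MvPolynomial.eval fun _ : Fin 1 => w))).eval b) b := by
    have h2 := ((PP Q).map (MvPolynomial.eval fun _ : Fin 1 => w)).hasDerivAt b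
    refine h2.congr_of_eventuallyEq (Eventually.of_forall fun y => ?_)
    exact PP_eval Q w y
  have hne : fderiv ℂ f (w, b) (0, 1) ≠ 0 := by
    rw [hd.unique hd']; exact h1
  have hinv : (fderiv ℂ f (w, b) ∘L .inr ℂ ℂ ℂ).IsInvertible := by
    refine ⟨ContinuousLinearEquiv.unitsEquivAut ℂ (Units.mk0 _ hne), ?_⟩
    ext
    simp
  refine ⟨hcd.implicitFunction (by simp) hinv, ?_, ?_, ?_⟩
  · exact hcd.implicitFunction_apply_self (by simp) hinv
  · have := hcd.contDiffAt_implicitFunction (by simp) hinv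
    exact this.analyticAt
  · have := hcd.eventually_apply_implicitFunction (by simp) hinv
    filter_upwards [this] with z hz
    exact hz.trans h0

open Pool.Agent.J4H69.K2 in
theorem t_BR : S_BR := by
  classical
  intro Q hQ hd
  obtain ⟨e, he0, he⟩ := PP_disc Q hQ hd
  have hP0 : PP Q ≠ 0 := (PP_irr Q hQ).ne_zero
  have hlc : (PP Q).leadingCoeff ≠ 0 := Polynomial.leadingCoeff_ne_zero.2 hP0
  obtain ⟨s, hs⟩ : ∃ s : Fin 1 → ℂ, MvPolynomial.eval s (e * (PP Q).leadingCoeff) ≠ 0 := by
    by_contra hcon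
    push Not at hcon
    apply mul_ne_zero he0 hlc
    apply MvPolynomial.funext
    intro s
    rw [hcon s, map_zero]
  have hsw : s = fun _ : Fin 1 => s 0 := by
    funext i
    rw [Subsingleton.elim i 0]
  set w : ℂ := s 0 with hw
  rw [hsw, map_mul] at hs
  have hew : MvPolynomial.eval (fun _ : Fin 1 => w) e ≠ 0 := left_ne_zero_of_mul hs
  have hlw : MvPolynomial.eval (fun _ : Fin 1 => w) (PP Q).leadingCoeff ≠ 0 := right_ne_zero_of_mul hs
  -- for a good `z` the number of the roots is the degree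
  have hroots : ∀ z : ℂ, MvPolynomial.eval (fun _ : Fin 1 => z) e ≠ 0 →
      MvPolynomial.eval (fun _ : Fin 1 => z) (PP Q).leadingCoeff ≠ 0 →
      ((PP Q).map (MvPolynomial.eval fun _ : Fin 1 => z)) ≠ 0 ∧
      ((PP Q).map (MvPolynomial.eval fun _ : Fin 1 => z)).roots.toFinset.card = (PP Q).natDegree := by
    intro z h1 h2
    set p := (PP Q).map (MvPolynomial.eval fun _ : Fin 1 => z) with hp
    have hdeg : p.natDegree = (PP Q).natDegree :=
      Polynomial.natDegree_map_of_leadingCoeff_ne_zero _ h2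
    have hp0 : p ≠ 0 := by
      intro h
      apply h2
      have h3 : p.coeff (PP Q).natDegree = MvPolynomial.eval (fun _ : Fin 1 => z) (PP Q).leadingCoeff := by
        rw [hp, Polynomial.coeff_map]; rfl
      rw [← h3, h, Polynomial.coeff_zero]
    refine ⟨hp0, ?_⟩
    have hnd : p.roots.Nodup := by
      rw [Multiset.nodup_iff_count_le_one]
      intro a
      rw [Polynomial.count_roots]
      by_contra hcon
      have h3 : 1 < p.rootMultiplicity a := by omega
      obtain ⟨h4, h5⟩ := (Polynomial.one_lt_rootMultiplicity_iff_isRoot hp0).1 h3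
      exact he z a h1 h4 h5
    rw [Multiset.toFinset_card_of_nodup hnd, ← hdeg]
    exact (Polynomial.splits_iff_card_roots.1 (IsAlgClosed.splits p))
  obtain ⟨hp0, hcard⟩ := hroots w hew hlw
  set Z : Finset ℂ := ((PP Q).map (MvPolynomial.eval fun _ : Fin 1 => w)).roots.toFinset with hZ
  have hZz : ∀ b ∈ Z, MvPolynomial.eval ![w, b] Q = 0 := by
    intro b hb
    rw [hZ, Multiset.mem_toFinset, Polynomial.mem_roots hp0] at hb
    rw [PP_eval]; exact hb
  let ee : Fin Z.card ≃ Z := (Finset.equivFin Z).symm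
  have hbr : ∀ k : Fin Z.card, ∃ α : ℂ → ℂ, α w = (ee k : Z) ∧ AnalyticAt ℂ α w ∧
      ∀ᶠ z in 𝓝 w, MvPolynomial.eval ![z, α z] Q = 0 := by
    intro k
    have h0 := hZz _ (ee k).2
    apply branch Q w _ h0
    apply he w _ hew
    rw [← PP_eval]; exact h0
  choose α hα0 hαa hαe using hbr
  have hdist : ∀ᶠ z in 𝓝 w, ∀ i j : Fin Z.card, i ≠ j → α i z ≠ α j z := by
    rw [eventually_all]; intro i
    rw [eventually_all]; intro j
    by_cases hij : i = j
    · exact Eventually.of_forall fun _ h => absurd hij h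
    · have hn : α i w ≠ α j w := by
        rw [hα0, hα0]
        intro h
        exact hij (ee.injective (Subtype.ext h))
      have ht : Tendsto (fun z => α i z - α j z) (𝓝 w) (𝓝 (α i w - α j w)) :=
        (hαa i).continuousAt.tendsto.sub (hαa j).continuousAt.tendsto
      filter_upwards [ht.eventually_ne (sub_ne_zero.2 hn)] with z hz _
      exact sub_ne_zero.1 hz
  have hzero : ∀ᶠ z in 𝓝 w, ∀ i : Fin Z.card, MvPolynomial.eval ![z, α i z] Q = 0 ∧
      AnalyticAt ℂ (α i) z := by
    rw [eventually_all]; intro i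
    exact (hαe i).and (hαa i).eventually_analyticAt
  have hcont : ∀ p : MvPolynomial (Fin 1) ℂ, MvPolynomial.eval (fun _ : Fin 1 => w) p ≠ 0 →
      ∀ᶠ z in 𝓝 w, MvPolynomial.eval (fun _ : Fin 1 => z) p ≠ 0 := by
    intro p hp
    have hc : Continuous fun z : ℂ => MvPolynomial.eval (fun _ : Fin 1 => z) p :=
      (MvPolynomial.continuous_eval p).comp (continuous_pi fun _ => continuous_id)
    exact hc.continuousAt.eventually_ne hp
  obtain ⟨δ, hδ, hball⟩ := Metric.eventually_nhds_iff_ball.1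
    (((hdist.and hzero).and (hcont e hew)).and (hcont _ hlw))
  refine ⟨w, δ, Z.card, α, hδ, ?_, ?_⟩
  · intro k z hz
    exact ((hball z hz).1.1.2 k).2
  · intro z hz y
    obtain ⟨⟨⟨g1, g2⟩, g3⟩, g4⟩ := hball z hz
    obtain ⟨hz0, hzc⟩ := hroots z g3 g4
    set R : Finset ℂ := ((PP Q).map (MvPolynomial.eval fun _ : Fin 1 => z)).roots.toFinset with hR
    have hmem : ∀ x : ℂ, x ∈ R ↔ MvPolynomial.eval ![z, x] Q = 0 := by
      intro x
      rw [hR, Multiset.mem_toFinset, Polynomial.mem_roots hz0, PP_eval]; rfl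
    have hinj : Function.Injective fun i => α i z := by
      intro i j hij
      by_contra h
      exact g1 i j h hij
    have hsub : (Finset.univ.image fun i => α i z) ⊆ R := by
      intro x hx
      obtain ⟨i, -, rfl⟩ := Finset.mem_image.1 hx
      exact (hmem _).2 (g2 i).1
    have heq : (Finset.univ.image fun i => α i z) = R := by
      apply Finset.eq_of_subset_of_card_le hsub
      rw [hzc, Finset.card_image_of_injective _ hinj, Finset.card_univ, Fintype.card_fin, hcard]
    rw [← hmem, ← heq, Finset.mem_image]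
    constructor
    · rintro ⟨i, -, hi⟩; exact ⟨i, hi.symm⟩
    · rintro ⟨i, hi⟩; exact ⟨i, Finset.mem_univ _, hi.symm⟩

end Pool.Agent.J4H22.K2
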