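import Pool.Agent.J4H22.K2.Br

/-!
# Project K2: (FIN1)
-/

set_option autoImplicit false

namespace Pool.Agent.J4H22.K2

open Filter Topology Set Metric
open Pool.Agent.J4H69.K1 Pool.Agent.J4H69.K2

lemma line (Q : MvPolynomial (Fin 2) ℂ) (p q w : ℂ) (δ : ℝ) (hδ : 0 < δ)
    (h : ∀ z ∈ ball w δ, MvPolynomial.eval ![z, p * z + q] Q = 0) (z : ℂ) :
    MvPolynomial.eval ![z, p * z + q] Q = 0 := by
  set R : Polynomial ℂ := MvPolynomial.aeval
    (![Polynomial.X, Polynomial.C p * Polynomial.X + Polynomial.C q] : Fin 2 → Polynomial ℂ) Q with hR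
  have hev : ∀ z : ℂ, R.eval z = MvPolynomial.eval ![z, p * z + q] Q := by
    intro z
    have : (Polynomial.evalRingHom z).comp (MvPolynomial.aeval
        (![Polynomial.X, Polynomial.C p * Polynomial.X + Polynomial.C q] :
          Fin 2 → Polynomial ℂ)).toRingHom = MvPolynomial.eval ![z, p * z + q] := by
      apply MvPolynomial.ringHom_ext
      · intro r; simp
      · intro i; fin_cases i <;> simp
    exact congrArg (fun f => f Q) this
  have h0 : R = 0 := by
    apply Polynomial.eq_zero_of_infinite_isRoot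
    apply (infinite_of_mem_nhds w (ball_mem_nhds w hδ)).mono
    intro z hz
    show R.eval z = 0
    rw [hev]; exact h z hz
  rw [← hev, h0, Polynomial.eval_zero]

/-- an irreducible polynomial containing both variables has no factor `X 1 - v` -/
lemma noconst (Q : MvPolynomial (Fin 2) ℂ) (hQ : Irreducible Q) (h0 : Q.degreeOf 0 ≠ 0) (v : ℂ)
    (h : ∀ z : ℂ, MvPolynomial.eval ![z, v] Q = 0) : False := by
  have hroot : (PP Q).IsRoot (MvPolynomial.C v) := by
    show (PP Q).eval (MvPolynomial.C v) = 0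
    apply MvPolynomial.funext
    intro s
    have hs : s = fun _ : Fin 1 => s 0 := by
      funext i; rw [Subsingleton.elim i 0]
    have h1 := h (s 0)
    rw [PP_eval, ← hs, Polynomial.eval_map] at h1
    have h2 : v = MvPolynomial.eval s (MvPolynomial.C v) := by simp
    rw [h2, Polynomial.eval₂_at_apply] at h1
    rw [h1, map_zero]
  obtain ⟨u, hu⟩ := Polynomial.dvd_iff_isRoot.2 hroot
  have hunit : IsUnit u := by
    rcases (PP_irr Q hQ).isUnit_or_isUnit hu with h1 | h1
    · exact absurd h1 (Polynomial.not_isUnit_X_sub_C _)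
    · exact h1
  obtain ⟨r, hr, rfl⟩ := Polynomial.isUnit_iff.1 hunit
  obtain ⟨c, -, rfl⟩ := MvPolynomial.isUnit_iff_eq_C_of_isReduced.1 hr
  have hQe : Q = MvPolynomial.C c * (MvPolynomial.X 1 - MvPolynomial.C v) := by
    apply MvPolynomial.funext
    intro s
    have hs : s = ![s 0, s 1] := by
      funext i; fin_cases i <;> rfl
    rw [hs, PP_eval, hu]
    simp
    ring
  apply h0
  rw [hQe]
  have h1 := MvPolynomial.degreeOf_C_mul_le (MvPolynomial.X 1 - MvPolynomial.C v) (0 : Fin 2) c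
  have h2 := MvPolynomial.degreeOf_sub_le (0 : Fin 2) (MvPolynomial.X 1) (MvPolynomial.C v)
  rw [MvPolynomial.degreeOf_C, MvPolynomial.degreeOf_X_of_ne (by decide)] at h2
  simp only [max_self, nonpos_iff_eq_zero] at h2
  omega

/-- analytic functions in a polynomial -/
lemma an {n : ℕ} (e : MvPolynomial (Fin n) ℂ) (g : Fin n → ℂ → ℂ) (z : ℂ)
    (h : ∀ i, AnalyticAt ℂ (g i) z) : AnalyticAt ℂ (fun z => MvPolynomial.eval (fun i => g i z) e) z := by
  induction e using MvPolynomial.induction_on with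
  | C a => simpa only [MvPolynomial.eval_C] using analyticAt_const
  | add p q hp hq => simpa only [map_add] using hp.fun_add hq
  | mul_X p i hp => simpa only [map_mul, MvPolynomial.eval_X] using hp.fun_mul (h i)

lemma rg_an (z : ℂ) : AnalyticAt ℂ rg z :=
  (Complex.differentiable_one_div_Gamma : Differentiable ℂ rg).analyticAt z

lemma fin3 (a b c i : Fin 3) (h1 : a ≠ b) (h2 : a ≠ c) (h3 : b ≠ c) (h4 : i ≠ a) (h5 : i ≠ b) :
    i = c := by
  have e1 := Fin.val_ne_of_ne h1
  have e2 := Fin.val_ne_of_ne h2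
  have e3 := Fin.val_ne_of_ne h3
  have e4 := Fin.val_ne_of_ne h4
  have e5 := Fin.val_ne_of_ne h5
  apply Fin.ext
  omega

/-- one branch: the coefficient does not vanish identically -/
lemma branch_ne (hAXL : S_AXL) (Q : MvPolynomial (Fin 2) ℂ) (hQ : Irreducible Q)
    (h0 : Q.degreeOf 0 ≠ 0) (hpq : ∀ p q : ℚ, ∃ x : ℂ, MvPolynomial.eval ![x, p * x + q] Q ≠ 0)
    (w : ℂ) (δ : ℝ) (hδ : 0 < δ) (α : ℂ → ℂ) (hα : AnalyticOnNhd ℂ α (ball w δ))
    (hz : ∀ z ∈ ball w δ, MvPolynomial.eval ![z, α z] Q = 0)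
    (e : MvPolynomial (Fin 3) ℂ) (he : e ≠ 0) :
    ∃ z ∈ ball w δ, MvPolynomial.eval (fun i => ![fun z => z, rg, fun z => rg (α z)] i z) e ≠ 0 := by
  set Ω : Set (Fin 1 → ℂ) := {t | t 0 ∈ ball w δ} with hΩ
  have hΩo : IsOpen Ω := isOpen_ball.preimage (continuous_apply 0)
  have hΩc : IsPreconnected Ω := by
    have : Convex ℝ Ω := (convex_ball w δ).linear_preimage
      ((LinearMap.proj 0 : (Fin 1 → ℂ) →ₗ[ℝ] ℂ))
    exact this.isPreconnected
  have hΩn : Ω.Nonempty := ⟨fun _ => w, mem_ball_self hδ⟩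
  have hpr : ∀ t : Fin 1 → ℂ, AnalyticAt ℂ (fun t : Fin 1 → ℂ => t 0) t := fun t =>
    (ContinuousLinearMap.proj (R := ℂ) (φ := fun _ : Fin 1 => ℂ) 0).analyticAt t
  set y : Fin 2 → (Fin 1 → ℂ) → ℂ := ![fun t => t 0, fun t => α (t 0)] with hy
  have hline : ∀ p q : ℚ, ¬ ∀ z ∈ ball w δ, α z = p * z + q := by
    intro p q h
    obtain ⟨x, hx⟩ := hpq p q
    apply hx
    apply line Q p q w δ hδ _ x
    intro z hz'
    rw [← h z hz']; exact hz z hz'
  have hconst : ∀ v : ℂ, ¬ ∀ z ∈ ball w δ, α z = v := by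
    intro v h
    apply noconst Q hQ h0 v
    intro z
    have := line Q 0 v w δ hδ (by
      intro z hz'
      rw [zero_mul, zero_add, ← h z hz']; exact hz z hz') z
    rwa [zero_mul, zero_add] at this
  have hid : ∀ v : ℂ, ¬ ∀ z ∈ ball w δ, z = v := by
    intro v h
    have h1 := h w (mem_ball_self hδ)
    have h2 := h (w + ((δ / 2 : ℝ) : ℂ)) (by
      rw [mem_ball, dist_eq_norm, add_sub_cancel_left, Complex.norm_real, Real.norm_eq_abs,
        abs_of_pos (by linarith)]
      linarith)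
    rw [← h1] at h2
    have h3 : ((δ / 2 : ℝ) : ℂ) = 0 := by
      have := congrArg (fun x => x - w) h2
      simpa using this
    have h4 : δ / 2 = 0 := by exact_mod_cast h3
    linarith
  have hwt : ∀ z ∈ ball w δ, (fun _ : Fin 1 => z) ∈ Ω := fun z hz => hz
  let P : MvPolynomial (Fin 1 ⊕ Fin 2) ℂ :=
    MvPolynomial.rename (![Sum.inl 0, Sum.inr 0, Sum.inr 1] : Fin 3 → Fin 1 ⊕ Fin 2) e
  have hP : P ≠ 0 := by
    intro h
    apply he
    apply MvPolynomial.rename_injective (![Sum.inl 0, Sum.inr 0, Sum.inr 1] : Fin 3 → Fin 1 ⊕ Fin 2) ?_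
    · rw [map_zero]; exact h
    · intro i j hij
      fin_cases i <;> fin_cases j <;> simp_all
  have A1 : ∀ i, AnalyticOnNhd ℂ (y i) Ω := by
    intro i
    fin_cases i
    · exact fun t _ => hpr t
    · intro t ht
      exact AnalyticAt.comp (g := α) (f := fun t : Fin 1 → ℂ => t 0) (hα (t 0) ht) (hpr t)
  have A2 : ∀ i, ∃ Q : Polynomial (MvPolynomial (Fin 1) ℂ), Q ≠ 0 ∧
      ∀ t ∈ Ω, (Q.map (MvPolynomial.eval t)).eval (y i t) = 0 := by
    intro i
    fin_cases i
    · refine ⟨Polynomial.X - Polynomial.C (MvPolynomial.X 0), Polynomial.X_sub_C_ne_zero _, ?_⟩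
      intro t _
      simp [hy]
    · refine ⟨PP Q, (PP_irr Q hQ).ne_zero, ?_⟩
      intro t ht
      have hs : t = fun _ : Fin 1 => t 0 := by
        funext i; rw [Subsingleton.elim i 0]
      have h1 := hz (t 0) ht
      rw [PP_eval, ← hs] at h1
      exact h1
  have A3 : ∀ i, ∀ v : ℂ, ¬ ∀ t ∈ Ω, y i t = v := by
    intro i v h
    fin_cases i
    · exact hid v fun z hz' => h _ (hwt z hz')
    · exact hconst v fun z hz' => h _ (hwt z hz')
  have A4 : ∀ i j, i ≠ j → ∀ p q : ℚ, ¬ ∀ t ∈ Ω, y i t = p * y j t + q := by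
    intro i j hij p q h
    fin_cases i <;> fin_cases j
    · exact hij rfl
    · -- `z = p α(z) + q`
      have h1 : ∀ z ∈ ball w δ, z = p * α z + q := fun z hz' => h _ (hwt z hz')
      by_cases hp : p = 0
      · apply hid q
        intro z hz'
        have := h1 z hz'
        rwa [hp, Rat.cast_zero, zero_mul, zero_add] at this
      · apply hline p⁻¹ (-(q / p))
        intro z hz'
        have h2 := h1 z hz'
        have hpc : (p : ℂ) ≠ 0 := by exact_mod_cast hp
        push_cast
        field_simp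
        linear_combination -h2
    · exact hline p q fun z hz' => h _ (hwt z hz')
    · exact hij rfl
  obtain ⟨t, ht, hne⟩ := hAXL 1 2 Ω y hΩo hΩc hΩn A1 A2 A3 A4 P hP
  refine ⟨t 0, ht, ?_⟩
  intro h
  apply hne
  rw [← h]
  simp only [P, MvPolynomial.eval_rename]
  congr 2
  funext i
  fin_cases i <;> simp [hy]

theorem t_FIN1 : S_AXL → S_BR → S_FIN1 := by
  classical
  intro hAXL hBR T I hI a b c hab hac hbc Q hQ hQI h0 h1 hpq hAlg
  obtain ⟨E, hE0, hE⟩ := hAlg (MvPolynomial.X (Sum.inl c))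
  set e := E.leadingCoeff with he
  have he0 : e ≠ 0 := Polynomial.leadingCoeff_ne_zero.2 hE0
  obtain ⟨w, δ, m, α, hδ, hα, hzero⟩ := hBR Q hQ h1
  let F : Fin m → ℂ → ℂ := fun k z =>
    MvPolynomial.eval (fun i => ![fun z => z, rg, fun z => rg (α k z)] i z) e
  have hFan : ∀ k, AnalyticOnNhd ℂ (F k) (ball w δ) := by
    intro k z hz
    apply an
    intro i
    fin_cases i
    · exact analyticAt_id
    · exact rg_an z
    · exact (rg_an (α k z)).comp (hα k z hz)
  have hFne : ∀ k, ∀ᶠ z in 𝓝[≠] w, F k z ≠ 0 := by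
    intro k
    rcases (hFan k w (mem_ball_self hδ)).eventually_eq_zero_or_eventually_ne_zero with h | h
    · exfalso
      obtain ⟨z, hz, hne⟩ := branch_ne hAXL Q hQ h0 hpq w δ hδ (α k) (hα k)
        (fun z hz => (hzero z hz _).2 ⟨k, rfl⟩) e he0
      have := (hFan k).eqOn_zero_of_preconnected_of_eventuallyEq_zero
        (convex_ball w δ).isPreconnected (mem_ball_self hδ) h
      exact hne (this hz)
    · exact h
  set U : Set ℂ := {z | z ∈ ball w δ ∧ ∀ k, F k z ≠ 0} with hU
  have hUo : IsOpen U := by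
    rw [isOpen_iff_mem_nhds]
    rintro z ⟨hz, hzF⟩
    have h2 : ∀ᶠ x in 𝓝 z, x ∈ ball w δ := isOpen_ball.mem_nhds hz
    have h3 : ∀ᶠ x in 𝓝 z, ∀ k, F k x ≠ 0 := by
      rw [eventually_all]
      intro k
      exact (hFan k z hz).continuousAt.eventually_ne (hzF k)
    exact h2.and h3
  have hUn : U.Nonempty := by
    have h2 : ∀ᶠ x in 𝓝[≠] w, x ∈ ball w δ :=
      mem_nhdsWithin_of_mem_nhds (ball_mem_nhds w hδ)
    have h3 : ∀ᶠ x in 𝓝[≠] w, ∀ k, F k x ≠ 0 := by
      rw [eventually_all]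
      exact hFne
    exact (h2.and h3).exists
  refine ⟨U, hUo, hUn, ?_⟩
  rintro c' ⟨hc', hF⟩
  let Ek : Fin m → Polynomial ℂ := fun k =>
    E.map (MvPolynomial.eval (fun i => ![fun z => z, rg, fun z => rg (α k z)] i c'))
  have hEk : ∀ k, Ek k ≠ 0 := by
    intro k h
    apply hF k
    have h2 : (Ek k).coeff E.natDegree = F k c' := by
      simp only [Ek, F, Polynomial.coeff_map]; rfl
    rw [← h2, h, Polynomial.coeff_zero]
  have hfin : (⋃ k : Fin m, (fun r : ℂ => fun i : Fin 3 => if i = a then c' else if i = b then α k c' else r) ''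
      ((Ek k).roots.toFinset : Set ℂ)).Finite :=
    Set.finite_iUnion fun k => (Finset.finite_toSet _).image _
  apply hfin.subset
  rintro z ⟨hzT, hza⟩
  have hQz := hI z hzT _ hQI
  rw [MvPolynomial.eval_rename] at hQz
  have hv : (env rg z ∘ ![Sum.inl a, Sum.inl b] : Fin 2 → ℂ) = ![c', z b] := by
    funext i
    fin_cases i
    · simp [env, hza]
    · simp [env]
  rw [hv] at hQz
  obtain ⟨k, hk⟩ := (hzero c' hc' _).1 hQz
  have hEz := hI z hzT _ hE
  have hEz' : (Ek k).eval (z c) = 0 := by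
    rw [← hEz]
    have h2 : z c = MvPolynomial.eval (env rg z) (MvPolynomial.X (Sum.inl c)) := by
      simp [env]
    have h3 : Ek k = (E.map (MvPolynomial.rename ![Sum.inl a, Sum.inr a, Sum.inr b] :
        MvPolynomial (Fin 3) ℂ →ₐ[ℂ] Pol).toRingHom).map (MvPolynomial.eval (env rg z)) := by
      rw [Polynomial.map_map]
      simp only [Ek]
      congr 1
      apply MvPolynomial.ringHom_ext
      · intro r; simp
      · intro i
        fin_cases i
        · simp [env, hza]
        · simp [env, hza]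
        · simp [env, hk]
    rw [h3, h2, Polynomial.eval_map, Polynomial.eval₂_at_apply]
  rw [Set.mem_iUnion]
  refine ⟨k, z c, ?_, ?_⟩
  · rw [Finset.mem_coe, Multiset.mem_toFinset, Polynomial.mem_roots (hEk k)]
    exact hEz'
  · funext i
    by_cases hia : i = a
    · simp only [hia, if_true]; exact hza.symm
    · by_cases hib : i = b
      · simp only [hib, if_true]
        rw [if_neg (by rw [← hib]; exact hia), hk]
      · simp only [hia, hib, if_false]
        rw [fin3 a b c i hab hac hbc hia hib]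

end Pool.Agent.J4H22.K2
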